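import Pool.Agent.Work.MP_0201f6_lc.A13
import Pool.Agent.Work.MP_0201f6_lc_helper21.Final

/-!
# It is consistent that some Suslin tree forces tree uniformization of all 2-colourings

The definitions of transitive models of ZFC, generic filters and generic extensions are in
`Pool/Agent/Work/MP_6efb98_lc/Defs.lean`; those of trees, ladder systems, colourings and
uniformizations in a model are in `Pool/Agent/Work/MP_0201f6_lc_helper21/Defs.lean`.
-/

open Pool.Agent.Work.MP_6efb98_lc Pool.Agent.Work.MP_0201f6_lc_helper21

/-- There is a countable transitive model `M` of ZFC with a Suslin tree `S`, an Aronszajn tree `T`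
and a ladder system `C` in `M` such that, for every `G` that is `S`-generic over `M`, in the
extension `M[G]` the ordinal `ω₁` is preserved, `T` is still an Aronszajn tree, `C` is still a
ladder system and every `2`-colouring of `C` has a `T`-uniformization. -/
theorem Pool.Agent.Results.MP_0201f6_lc.SuslinUniformization.result :
    ∃ M : Set ZFSet.{0}, M.Countable ∧ IsModel M ∧
    ∃ κ S T C : ZFSet.{0}, IsOmegaOne M κ ∧ IsSuslin M κ S ∧ IsAronszajn M κ T ∧
      IsLadder M κ C ∧ (∃ G, IsGeneric M {s | s ∈ S} G) ∧
      ∀ G, IsGeneric M {s | s ∈ S} G → IsOmegaOne (Ext M G) κ ∧ IsAronszajn (Ext M G) κ T ∧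
        IsLadder (Ext M G) κ C ∧
        ∀ f ∈ Ext M G, ZFSet.IsFunc C {∅, {∅}} f → ∃ φ, Uniformizes (Ext M G) κ T C f φ := by
  obtain ⟨B, hB1, hB2, ⟨P⟩⟩ := Pool.Agent.Work.MP_0201f6_lc.exists_partA
  exact main_of P
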